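import Mathlib

set_option autoImplicit false

namespace Pool.Agent.H.MP_acc8c3_co

open Finset

abbrev Col (n : ℕ) := Fin (n + 3)
abbrev Val (n : ℕ) := Fin (2 * n + 6)

def emb (n : ℕ) (i : Fin (n + 1)) : Val n := Fin.castLE (by omega) i

lemma emb_inj (n : ℕ) : Function.Injective (emb n) :=
  fun _ _ h => Fin.ext (by simpa [emb] using congrArg Fin.val h)

def InA (n : ℕ) (a : Col n → Val n) : Prop :=
  (∃ i, ∀ c, a c = emb n i) ∨ (∃ c, ∀ c', c' ≠ c → a c' = emb n 0)

def InB (n : ℕ) (b : Col n → Val n) : Prop :=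
  (∀ i, ∃ c, b c = emb n i) ∧ ∃ c c', c ≠ c' ∧ b c = emb n 0 ∧ b c' = emb n 0

lemma agree {n : ℕ} {a b : Col n → Val n} (ha : InA n a) (hb : InB n b) : ∃ c, a c = b c := by
  rcases ha with ⟨i, hi⟩ | ⟨c, hc⟩
  · obtain ⟨c, hc⟩ := hb.1 i
    exact ⟨c, by rw [hi, hc]⟩
  · obtain ⟨c1, c2, h12, h1, h2⟩ := hb.2
    by_cases h : c1 = c
    · exact ⟨c2, by rw [hc c2 (fun h' => h12 (h.trans h'.symm)), h2]⟩
    · exact ⟨c1, by rw [hc c1 h, h1]⟩

def rho (n : ℕ) (d : Option (Fin (n + 1))) : Fin (n + 1) := d.getD 0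

lemma inB_extend {n : ℕ} (f : Option (Fin (n + 1)) → Col n) (hf : Function.Injective f)
    (g : Col n → Val n) : InB n (Function.extend f (fun d => emb n (rho n d)) g) := by
  refine ⟨fun i => ⟨f (some i), ?_⟩, f none, f (some 0), ?_, ?_, ?_⟩
  · rw [hf.extend_apply]; rfl
  · intro h; exact absurd (hf h) (by simp)
  · rw [hf.extend_apply]; rfl
  · rw [hf.extend_apply]; rfl

lemma exists_B {n : ℕ} (c : Col n) (v : Val n) : ∃ b, InB n b ∧ b c = v := by
  let f : Option (Fin (n + 1)) → Col n := fun d => c.succAbove ((finSuccEquiv (n + 1)).symm d)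
  have hf : Function.Injective f :=
    (Fin.succAbove_right_injective).comp (finSuccEquiv (n + 1)).symm.injective
  refine ⟨_, inB_extend f hf (fun _ => v), ?_⟩
  rw [Function.extend_apply']
  rintro ⟨d, hd⟩
  exact Fin.succAbove_ne c _ hd

lemma exists_A {n : ℕ} (c : Col n) (v : Val n) : ∃ a, InA n a ∧ a c = v :=
  ⟨Function.update (fun _ => emb n 0) c v, Or.inr ⟨c, fun c' h => by simp [h]⟩, by simp⟩

lemma cover_card {n : ℕ} (S : Finset (Col n × Val n))
    (hA : ∀ a, InA n a → ∃ c, (c, a c) ∈ S) (hB : ∀ b, InB n b → ∃ c, (c, b c) ∈ S) :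
    2 * n + 2 ≤ S.card := by
  by_contra hlt
  push Not at hlt
  have hfree : ∀ c : Col n, ∃ v, (c, v) ∉ S := by
    intro c
    by_contra h
    push Not at h
    have : (univ.image (fun v : Val n => (c, v))).card ≤ S.card :=
      card_le_card (by intro p hp; obtain ⟨v, -, rfl⟩ := mem_image.1 hp; exact h v)
    rw [card_image_of_injective _ (fun v w h => (Prod.ext_iff.1 h).2)] at this
    simp at this
    omega
  choose g hg using hfree
  let N : Option (Fin (n + 1)) → Finset (Col n) :=
    fun d => univ.filter (fun c => (c, emb n (rho n d)) ∉ S)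
  let s : Fin (n + 1) → ℕ := fun i => (S.filter (fun p => p.2 = emb n i)).card
  have hsum : ∑ i, s i ≤ S.card := by
    have h1 : ∑ i, s i = (univ.biUnion (fun i : Fin (n + 1) =>
        S.filter (fun p => p.2 = emb n i))).card := by
      rw [card_biUnion]
      intro i _ j _ hij
      rw [Function.onFun, disjoint_left]
      intro p hp hq
      exact hij (emb_inj n ((mem_filter.1 hp).2.symm.trans (mem_filter.1 hq).2))
    rw [h1]
    exact card_le_card (biUnion_subset.2 fun i _ => filter_subset _ _)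
  have hs1 : ∀ i, 1 ≤ s i := by
    intro i
    obtain ⟨c, hc⟩ := hA (fun _ => emb n i) (Or.inl ⟨i, fun _ => rfl⟩)
    exact card_pos.2 ⟨_, mem_filter.2 ⟨hc, rfl⟩⟩
  have hall : ∀ T : Finset (Option (Fin (n + 1))), T.card ≤ (T.biUnion N).card := by
    intro T
    by_contra hT
    push Not at hT
    set U := T.biUnion N with hU
    set R := T.image (rho n) with hR
    have hr1 : T.card ≤ R.card + 1 := by
      have h1 : (T.erase none).card ≤ R.card := by
        apply card_le_card_of_injOn (rho n)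
        · intro d hd
          exact mem_coe.2 (mem_image_of_mem _ (mem_of_mem_erase (mem_coe.1 hd)))
        · intro d hd d' hd' h
          have h1 := ne_of_mem_erase (mem_coe.1 hd)
          have h2 := ne_of_mem_erase (mem_coe.1 hd')
          cases d with
          | none => exact absurd rfl h1
          | some x =>
            cases d' with
            | none => exact absurd rfl h2
            | some y => simpa [rho] using h
      have := pred_card_le_card_erase (s := T) (a := none)
      omega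
    have hr2 : 1 ≤ R.card := by
      have : T.Nonempty := card_pos.1 (by omega)
      exact card_pos.2 (this.image _)
    have hr3 : R.card ≤ n + 1 := by simpa using card_le_univ R
    have hsR : ∀ i ∈ R, n + 3 - U.card ≤ s i := by
      intro i hi
      obtain ⟨d, hd, rfl⟩ := mem_image.1 hi
      have h1 : (Uᶜ).card = n + 3 - U.card := by rw [card_compl]; simp
      rw [← h1]
      apply card_le_card_of_injOn (fun c => (c, emb n (rho n d)))
      · intro c hc
        have hc' : c ∉ U := mem_compl.1 (mem_coe.1 hc)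
        refine mem_coe.2 (mem_filter.2 ⟨?_, rfl⟩)
        by_contra h
        exact hc' (mem_biUnion.2 ⟨d, hd, mem_filter.2 ⟨mem_univ _, h⟩⟩)
      · intro c _ c' _ h
        exact (Prod.ext_iff.1 h).1
    have e1 : ∑ i, s i = ∑ i ∈ R, s i + ∑ i ∈ Rᶜ, s i := (sum_add_sum_compl R s).symm
    have e2 : R.card * (n + 3 - U.card) ≤ ∑ i ∈ R, s i := by
      simpa using card_nsmul_le_sum R s _ hsR
    have e3 : (Rᶜ).card * 1 ≤ ∑ i ∈ Rᶜ, s i := by
      simpa using card_nsmul_le_sum Rᶜ s 1 (fun i _ => hs1 i)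
    have e4 : (Rᶜ).card = n + 1 - R.card := by rw [card_compl]; simp
    have e5 : R.card * (n + 3 - R.card) ≤ R.card * (n + 3 - U.card) :=
      Nat.mul_le_mul_left _ (by omega)
    obtain ⟨r, hr⟩ : ∃ r, R.card = r + 1 := ⟨R.card - 1, by omega⟩
    obtain ⟨w, hw⟩ : ∃ w, n = r + w := ⟨n - r, by omega⟩
    have e6 : R.card * (n + 3 - R.card) = (r + 1) * (w + 2) := by
      rw [hr]; congr 1; omega
    have e7 : (r + 1) * (w + 2) = r * w + 2 * r + w + 2 := by ring
    omega
  obtain ⟨f, hf, hfN⟩ := (all_card_le_biUnion_card_iff_exists_injective N).1 hall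
  obtain ⟨c, hc⟩ := hB _ (inB_extend f hf g)
  by_cases h : ∃ d, f d = c
  · obtain ⟨d, rfl⟩ := h
    rw [hf.extend_apply] at hc
    exact (mem_filter.1 (hfN d)).2 hc
  · rw [Function.extend_apply' _ _ _ h] at hc
    exact hg c hc

abbrev VA (n : ℕ) := {a : Col n → Val n // InA n a} × Col n
abbrev VB (n : ℕ) := {b : Col n → Val n // InB n b} × Col n

noncomputable def chi (n : ℕ) (u : VA n) (v : VB n) : Col n :=
  if u.1.1 (u.2 + v.2) = v.1.1 (u.2 + v.2) then u.2 + v.2 else (agree u.1.2 v.1.2).choose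

lemma chi_agree (n : ℕ) (u : VA n) (v : VB n) : u.1.1 (chi n u v) = v.1.1 (chi n u v) := by
  unfold chi
  split_ifs with h
  · exact h
  · exact (agree u.1.2 v.1.2).choose_spec

lemma span_A (n : ℕ) (c : Col n) (u : VA n) : ∃ v, chi n u v = c := by
  obtain ⟨b, hb, hc⟩ := exists_B c (u.1.1 c)
  refine ⟨(⟨b, hb⟩, c - u.2), ?_⟩
  unfold chi
  simp [hc]

lemma span_B (n : ℕ) (c : Col n) (v : VB n) : ∃ u, chi n u v = c := by
  obtain ⟨a, ha, hc⟩ := exists_A c (v.1.1 c)
  refine ⟨(⟨a, ha⟩, c - v.2), ?_⟩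
  unfold chi
  simp [hc]

def vec (n : ℕ) : VA n ⊕ VB n → Col n → Val n
  | Sum.inl u => u.1.1
  | Sum.inr v => v.1.1

end Pool.Agent.H.MP_acc8c3_co
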